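import Pool.Agent.H13.EDM.Targets
import Pool.Agent.H8.TD.Basic

/-!
# Independent elements are completed by members of linear systems
-/

open Pool.Agent.H8.TD (lc dg Wsp)

namespace Pool.Agent.H68.EDM

open Pool.Agent.H13.EDM

/-- if a field is algebraic over the field generated by a set of elements which are algebraic
over a larger field, it is algebraic over this larger field -/
theorem alg_of_alg {κ C : Type} [Field κ] [Field C] [Algebra κ C] (κ1 : IntermediateField κ C)
    (S : Set C) (hS : ∀ s ∈ S, IsAlgebraic κ1 s)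
    (hC : Algebra.IsAlgebraic (IntermediateField.adjoin κ S) C) : Algebra.IsAlgebraic κ1 C := by
  have hle : IntermediateField.adjoin κ S ≤ (algebraicClosure κ1 C).restrictScalars κ :=
    IntermediateField.adjoin_le_iff.2 fun x hx => mem_algebraicClosure_iff.2 (hS x hx)
  have hL : Algebra.IsAlgebraic (algebraicClosure κ1 C) C := by
    refine ⟨fun c => ?_⟩
    obtain ⟨P, hP, hPc⟩ := hC.isAlgebraic c
    let f : IntermediateField.adjoin κ S →+* algebraicClosure κ1 C :=
      (IntermediateField.inclusion hle).toRingHom
    refine ⟨P.map f, ?_, ?_⟩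
    · rwa [Ne, Polynomial.map_eq_zero]
    · rw [Polynomial.aeval_def, Polynomial.eval₂_map]
      exact hPc
  exact Algebra.IsAlgebraic.trans κ1 (algebraicClosure κ1 C) C

theorem pf_EXG (hIFD : T_IFD) (hTRD : T_TRD) : T_EXG := by
  intro p e
  induction e generalizing p with
  | zero =>
    intro b k κ C _ _ _ _ _ _ _ x ψ htr hfg hx hψ
    refine ⟨Fin.elim0, ?_⟩
    have h1 := (hIFD p κ C x (by rw [htr, Nat.add_zero]) hfg).2 hx
    have h2 : (Set.range x ∪ Set.range fun i => lc ((Fin.elim0 : Fin 0 → Fin b → k) i) (ψ i)) =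
        Set.range x := by
      rw [Set.range_eq_empty (fun i : Fin 0 => lc ((Fin.elim0 : Fin 0 → Fin b → k) i) (ψ i)),
        Set.union_empty]
    rw [h2]
    exact h1
  | succ e ih =>
    intro b k κ C _ _ _ _ _ _ _ x ψ htr hfg hx hψ
    have h1 : ∃ i, Transcendental (IntermediateField.adjoin κ (Set.range x)) (ψ 0 i) := by
      by_contra hcon
      push Not at hcon
      have halg : Algebra.IsAlgebraic (IntermediateField.adjoin κ (Set.range x)) C := by
        apply alg_of_alg _ (Set.range (ψ 0)) _ (hψ 0)
        rintro _ ⟨i, rfl⟩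
        have := hcon i
        rwa [Transcendental, not_not] at this
      have h2 := hTRD p (e + 1) κ C x hx htr
      rw [trdeg_eq_zero_iff.2 halg] at h2
      have h3 : ((e + 1 : ℕ) : Cardinal) ≠ 0 := by
        exact_mod_cast Nat.succ_ne_zero e
      exact h3 h2.symm
    obtain ⟨i, hi⟩ := h1
    have h2 : AlgebraicIndependent κ (Fin.snoc x (ψ 0 i) : Fin (p + 1) → C) := by
      have h3 : Transcendental (Algebra.adjoin κ (Set.range x)) (ψ 0 i) := by
        intro h
        apply hi
        obtain ⟨P, hP, hPc⟩ := h
        let f : Algebra.adjoin κ (Set.range x) →+* IntermediateField.adjoin κ (Set.range x) :=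
          (Subalgebra.inclusion (IntermediateField.algebra_adjoin_le_adjoin κ
            (Set.range x))).toRingHom
        have hf : Function.Injective f := Subalgebra.inclusion_injective _
        refine ⟨P.map f, ?_, ?_⟩
        · rwa [Ne, Polynomial.map_eq_zero_iff hf]
        · rw [Polynomial.aeval_def, Polynomial.eval₂_map]
          exact hPc
      have h4 := (hx.option_iff_transcendental (ψ 0 i)).2 h3
      have h5 : (Fin.snoc x (ψ 0 i) : Fin (p + 1) → C) =
          (fun o : Option (Fin p) => o.elim (ψ 0 i) x) ∘ finSuccEquivLast := by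
        funext j
        refine Fin.lastCases ?_ (fun j => ?_) j
        · simp
        · simp
      rw [h5]
      exact h4.comp _ finSuccEquivLast.injective
    obtain ⟨t, ht⟩ := ih (p + 1) b k κ C (Fin.snoc x (ψ 0 i)) (fun j => ψ j.succ)
      (by rw [htr]; push_cast; ring) hfg h2 (fun j => hψ j.succ)
    refine ⟨Fin.cons (Pi.single i 1) t, ?_⟩
    have h6 : (Set.range x ∪ Set.range fun j => lc ((Fin.cons (Pi.single i 1) t :
        Fin (e + 1) → Fin b → k) j) (ψ j)) =
        Set.range (Fin.snoc x (ψ 0 i) : Fin (p + 1) → C) ∪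
          Set.range fun j : Fin e => lc (t j) (ψ j.succ) := by
      have h7 : (fun j => lc ((Fin.cons (Pi.single i 1) t : Fin (e + 1) → Fin b → k) j) (ψ j)) =
          Fin.cons (ψ 0 i) fun j : Fin e => lc (t j) (ψ j.succ) := by
        funext j
        refine Fin.cases ?_ (fun j => ?_) j
        · rw [Fin.cons_zero, Fin.cons_zero, Pool.Agent.H8.TD.lc_single]
        · rw [Fin.cons_succ, Fin.cons_succ]
      rw [h7, Fin.range_cons, Fin.range_snoc, Set.insert_union, Set.union_insert]
    rw [h6]
    exact ht

end Pool.Agent.H68.EDM
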