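import Pool.Agent.H13.EDM.Targets

/-!
# Finitely generated extensions over a larger field
-/

namespace Pool.Agent.H68.EDM

open Pool.Agent.H13.EDM

theorem pf_FGU : T_FGU := by
  intro κ C _ _ _ S h
  rw [IntermediateField.fg_def] at h ⊢
  obtain ⟨t, ht, hadj⟩ := h
  refine ⟨t, ht, ?_⟩
  rw [eq_top_iff]
  intro c _
  have h1 : IntermediateField.adjoin κ t ≤ (IntermediateField.adjoin
      (IntermediateField.adjoin κ S) t).restrictScalars κ :=
    IntermediateField.adjoin_le_iff.2 fun x hx => IntermediateField.subset_adjoin _ _ hx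
  have h2 : c ∈ IntermediateField.adjoin κ t := by
    rw [hadj]
    exact IntermediateField.mem_top
  exact h1 h2

end Pool.Agent.H68.EDM
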